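import Pool.Agent.Q301.LC.Sharp

/-!
# Logarithmic coefficients of the class `S*_ch`

For `f` with `z f'(z) / f(z) = φ₀(ω(z))`, `φ₀(z) = z + cosh z`, and `log (f(z)/z) = 2 ∑ γ_n z^n`:
`2 n |γ_n| ≤ |c_n| + (cosh 1 - 1) (1 - |c_n|²)` with `c_n` the `n`-th coefficient of `ω`, hence
`|γ_n| ≤ 1.00342 / (2 n)` for all `n ≥ 1`, and `|γ_n| ≤ 1 / (2 n)` when `|c_n| ≤ 0.841`. Moreover
`|γ_n| ≤ 1 / (2 n)` for `n ≤ 6`.
-/

set_option autoImplicit false

open Set Metric Filter Topology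

namespace Pool.Agent.Results.MP_3ad82e_an.LogCoefficientBound

/-- `φ₀(z) = z + cosh z` -/
noncomputable def phi0 (z : ℂ) : ℂ := z + Complex.cosh z

/-- `f` belongs to the class `S*_ch` and `ω` is a Schwarz function of `z f'(z) / f(z) ≺ φ₀(z)`. -/
structure SchWith (f ω : ℂ → ℂ) : Prop where
  diff : DifferentiableOn ℂ f (ball 0 1)
  zero : f 0 = 0
  one : deriv f 0 = 1
  ne : ∀ z ∈ ball (0 : ℂ) 1, z ≠ 0 → f z ≠ 0
  omega_diff : DifferentiableOn ℂ ω (ball 0 1)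
  omega_zero : ω 0 = 0
  omega_lt : ∀ z ∈ ball (0 : ℂ) 1, ‖ω z‖ < 1
  eq : ∀ z ∈ ball (0 : ℂ) 1, z ≠ 0 → z * deriv f z / f z = phi0 (ω z)

/-- the class `S*_ch` -/
def Sch (f : ℂ → ℂ) : Prop := ∃ ω, SchWith f ω

/-- `L` is the branch of `log (f(z)/z)` on the unit disc that vanishes at `0`. -/
structure LogBranch (f L : ℂ → ℂ) : Prop where
  diff : DifferentiableOn ℂ L (ball 0 1)
  zero : L 0 = 0
  exp : ∀ z ∈ ball (0 : ℂ) 1, f z = z * Complex.exp (L z)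

/-- the `n`-th Taylor coefficient at `0` -/
noncomputable def coeff (g : ℂ → ℂ) (n : ℕ) : ℂ := iteratedDeriv n g 0 / (n.factorial : ℂ)

/-- the `n`-th logarithmic coefficient: `L(z) = 2 ∑ γ_n z^n` -/
noncomputable def gamma (L : ℂ → ℂ) (n : ℕ) : ℂ := coeff L n / 2

open Pool.Agent.H21SS Pool.Agent.H21SS.C802 Pool.Agent.Q301.LC

theorem coeff_eq (g : ℂ → ℂ) (n : ℕ) : coeff g n = tc g n := rfl

theorem cf_dil' (F : ℂ → ℂ) (hF : DifferentiableOn ℂ F (ball 0 1)) (r : ℝ) (N : ℕ)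
    (hr : 0 < r) (hr1 : r < 1) : cf (fun z => F (r * z)) N = r ^ N * tc F N := by
  rw [← cav_eq_tc F 1 r hr hr1 hF, Real.circleAverage_eq_circleAverage_zero_one]
  have h1 : (r : ℂ) ^ N * Real.circleAverage (fun z => F (r * z + 0) * ((r * z + 0) ^ N)⁻¹) 0 1 =
      Real.circleAverage (fun z => ((r : ℂ) ^ N) • (F (r * z + 0) * ((r * z + 0) ^ N)⁻¹)) 0 1 := by
    rw [Real.circleAverage_fun_smul, smul_eq_mul]
  rw [h1]
  unfold cf
  apply Real.circleAverage_congr_sphere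
  intro z hz
  have hrc : (r : ℂ) ≠ 0 := by exact_mod_cast hr.ne'
  simp only [add_zero, smul_eq_mul]
  rw [mul_pow, mul_inv]
  field_simp

theorem euler {f ω L : ℂ → ℂ} (hf : SchWith f ω) (hL : LogBranch f L) {z : ℂ}
    (hz : z ∈ ball (0 : ℂ) 1) : z * deriv L z = ω z + Complex.cosh (ω z) - 1 := by
  by_cases h0 : z = 0
  · subst h0
    simp [hf.omega_zero]
  · have hLd : HasDerivAt L (deriv L z) z :=
      (hL.diff.differentiableAt (isOpen_ball.mem_nhds hz)).hasDerivAt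
    have h1 : HasDerivAt (fun z => z * Complex.exp (L z))
        (1 * Complex.exp (L z) + z * (Complex.exp (L z) * deriv L z)) z :=
      (hasDerivAt_id z).mul hLd.cexp
    have h2 : f =ᶠ[𝓝 z] fun z => z * Complex.exp (L z) := by
      filter_upwards [isOpen_ball.mem_nhds hz] with y hy using hL.exp y hy
    have h3 : deriv f z = 1 * Complex.exp (L z) + z * (Complex.exp (L z) * deriv L z) := by
      rw [h2.deriv_eq]
      exact h1.deriv
    have h4 := hf.eq z hz h0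
    rw [h3, hL.exp z hz, phi0] at h4
    have h5 : Complex.exp (L z) ≠ 0 := Complex.exp_ne_zero _
    rw [div_eq_iff (mul_ne_zero h0 h5)] at h4
    have h6 : z * Complex.exp (L z) ≠ 0 := mul_ne_zero h0 h5
    have h7 : (z * Complex.exp (L z)) * (1 + z * deriv L z) =
        (z * Complex.exp (L z)) * (ω z + Complex.cosh (ω z)) := by
      linear_combination h4
    have h8 := mul_left_cancel₀ h6 h7
    linear_combination h8

theorem dil {F : ℂ → ℂ} (hF : DifferentiableOn ℂ F (ball 0 1)) {r : ℝ} (hr : 0 < r) :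
    DifferentiableOn ℂ (fun z => F (r * z)) (ball 0 (1 / r)) := by
  refine hF.comp (by fun_prop) ?_
  intro z hz
  rw [mem_ball_zero_iff] at hz ⊢
  rw [norm_mul, Complex.norm_real, Real.norm_of_nonneg hr.le]
  calc r * ‖z‖ < r * (1 / r) := by gcongr
    _ = 1 := by field_simp

theorem mem_r {r : ℝ} (hr : 0 < r) : ∀ z ∈ ball (0 : ℂ) (1 / r), (r : ℂ) * z ∈ ball (0 : ℂ) 1 := by
  intro z hz
  rw [mem_ball_zero_iff] at hz ⊢
  rw [norm_mul, Complex.norm_real, Real.norm_of_nonneg hr.le]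
  calc r * ‖z‖ < r * (1 / r) := by gcongr
    _ = 1 := by field_simp

theorem eq_r {f ω L : ℂ → ℂ} (hf : SchWith f ω) (hL : LogBranch f L) (n : ℕ)
    {r : ℝ} (hr : 0 < r) (hr1 : r < 1) :
    (n : ℝ) * (r ^ n * ‖coeff L n‖) =
      ‖cf (fun z => ω (r * z) + Complex.cosh (ω (r * z)) - 1) n‖ := by
  have hR : 1 < 1 / r := by rw [lt_div_iff₀ hr]; linarith
  have hmem := mem_r hr
  have hLr := dil hL.diff hr
  have h2 : cf (fun z => z * deriv (fun z => L (r * z)) z) n =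
      cf (fun z => ω (r * z) + Complex.cosh (ω (r * z)) - 1) n := by
    unfold cf
    apply Real.circleAverage_congr_sphere
    intro z hz
    have hz' : z ∈ ball (0 : ℂ) (1 / r) := by
      rw [mem_ball_zero_iff]
      have : ‖z‖ = 1 := by simpa using hz
      rw [this]; exact hR
    have h3 : HasDerivAt (fun z => L (r * z)) (deriv L (r * z) * r) z := by
      have h4 : HasDerivAt L (deriv L (r * z)) (r * z) :=
        (hL.diff.differentiableAt (isOpen_ball.mem_nhds (hmem z hz'))).hasDerivAt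
      have h5 : HasDerivAt (fun z : ℂ => (r : ℂ) * z) r z := by
        simpa using (hasDerivAt_id z).const_mul (r : ℂ)
      exact h4.comp z h5
    have h6 := euler hf hL (hmem z hz')
    simp only
    rw [h3.deriv, ← h6]
    ring
  rw [← h2, cf_euler _ (1 / r) hR hLr, cf_dil' L hL.diff r n hr hr1]
  simp only [norm_mul, norm_pow, Complex.norm_real, Real.norm_of_nonneg hr.le,
    Complex.norm_natCast]
  rfl

theorem bound_r {f ω L : ℂ → ℂ} (hf : SchWith f ω) (hL : LogBranch f L) {n : ℕ} (hn : 1 ≤ n)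
    {r : ℝ} (hr : 0 < r) (hr1 : r < 1) :
    (n : ℝ) * (r ^ n * ‖coeff L n‖) ≤
      r ^ n * ‖coeff ω n‖ + (Real.cosh 1 - 1) * (1 - (r ^ n * ‖coeff ω n‖) ^ 2) := by
  have hR : 1 < 1 / r := by rw [lt_div_iff₀ hr]; linarith
  have h1 := Pool.Agent.Q301.LC.main (fun z => ω (r * z)) (1 / r) hR (dil hf.omega_diff hr)
    (by simp [hf.omega_zero]) (fun z hz => hf.omega_lt _ (mem_r hr z hz)) n hn
  rw [← eq_r hf hL n hr hr1, cf_dil' ω hf.omega_diff r n hr hr1] at h1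
  simp only [norm_mul, norm_pow, Complex.norm_real, Real.norm_of_nonneg hr.le] at h1
  exact h1

theorem bound_low {f ω L : ℂ → ℂ} (hf : SchWith f ω) (hL : LogBranch f L) {n : ℕ} (hn : 1 ≤ n)
    (hn6 : n ≤ 6) : (n : ℝ) * ‖coeff L n‖ ≤ 1 := by
  have h1 : Tendsto (fun r : ℝ => (n : ℝ) * (r ^ n * ‖coeff L n‖)) (𝓝[<] 1)
      (𝓝 ((n : ℝ) * (1 ^ n * ‖coeff L n‖))) := by
    refine Tendsto.mono_left ?_ nhdsWithin_le_nhds
    exact Continuous.tendsto (by fun_prop) 1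
  have h3 := le_of_tendsto h1 (b := 1) (by
    filter_upwards [Ioo_mem_nhdsLT (zero_lt_one (α := ℝ))] with r hr
    have hR : 1 < 1 / r := by rw [lt_div_iff₀ hr.1]; linarith [hr.2]
    rw [eq_r hf hL n hr.1 hr.2]
    exact low_n (fun z => ω (r * z)) (1 / r) hR (dil hf.omega_diff hr.1)
      (by simp [hf.omega_zero]) (fun z hz => hf.omega_lt _ (mem_r hr.1 z hz)) n hn hn6)
  simpa using h3

theorem bound {f ω L : ℂ → ℂ} (hf : SchWith f ω) (hL : LogBranch f L) {n : ℕ} (hn : 1 ≤ n) :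
    (n : ℝ) * ‖coeff L n‖ ≤
      ‖coeff ω n‖ + (Real.cosh 1 - 1) * (1 - ‖coeff ω n‖ ^ 2) := by
  have h1 : Tendsto (fun r : ℝ => (n : ℝ) * (r ^ n * ‖coeff L n‖)) (𝓝[<] 1)
      (𝓝 ((n : ℝ) * (1 ^ n * ‖coeff L n‖))) := by
    refine Tendsto.mono_left ?_ nhdsWithin_le_nhds
    exact Continuous.tendsto (by fun_prop) 1
  have h2 : Tendsto (fun r : ℝ => r ^ n * ‖coeff ω n‖ +
      (Real.cosh 1 - 1) * (1 - (r ^ n * ‖coeff ω n‖) ^ 2)) (𝓝[<] 1)
      (𝓝 (1 ^ n * ‖coeff ω n‖ + (Real.cosh 1 - 1) * (1 - (1 ^ n * ‖coeff ω n‖) ^ 2))) := by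
    refine Tendsto.mono_left ?_ nhdsWithin_le_nhds
    exact Continuous.tendsto (by fun_prop) 1
  have h3 := le_of_tendsto_of_tendsto h1 h2 (by
    filter_upwards [Ioo_mem_nhdsLT (zero_lt_one (α := ℝ))] with r hr
    exact bound_r hf hL hn hr.1 hr.2)
  simpa using h3

theorem kappa_lt : Real.cosh 1 - 1 < 0.543081 := by
  rw [Real.cosh_eq, Real.exp_neg]
  have h1 := Real.exp_one_lt_d9
  have h2 := Real.exp_one_gt_d9
  have h3 : (Real.exp 1)⁻¹ < 0.36787945 := by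
    rw [inv_lt_comm₀ (by linarith) (by norm_num)]
    refine lt_trans ?_ h2
    norm_num
  linarith

theorem kappa_gt : 1 / 2 < Real.cosh 1 - 1 := by
  rw [Real.cosh_eq, Real.exp_neg]
  have h1 := Real.exp_one_lt_d9
  have h2 := Real.exp_one_gt_d9
  have h3 : 0.3678794 < (Real.exp 1)⁻¹ := by
    rw [lt_inv_comm₀ (by norm_num) (by linarith)]
    refine lt_trans h1 ?_
    norm_num
  linarith

/-- **Theorem.** Let `f ∈ S*_ch` and let `γ_n` be its logarithmic coefficients. Then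
`|γ_n| ≤ 1 / (2n)` for `1 ≤ n ≤ 6` and `|γ_n| ≤ 1.00342 / (2n)` for all `n ≥ 1`. If `ω` is the
Schwarz function and `c_n` its `n`-th coefficient, then
`2 n |γ_n| ≤ |c_n| + (cosh 1 - 1)(1 - |c_n|²)`, and `|γ_n| ≤ 1 / (2n)` if `|c_n| ≤ 0.841`. -/
theorem result :
    (∀ f L : ℂ → ℂ, Sch f → LogBranch f L → ∀ n : ℕ, 1 ≤ n → n ≤ 6 →
      ‖gamma L n‖ ≤ 1 / (2 * n)) ∧
    (∀ f L : ℂ → ℂ, Sch f → LogBranch f L → ∀ n : ℕ, 1 ≤ n →
      ‖gamma L n‖ ≤ 1.00342 / (2 * n)) ∧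
    (∀ f ω L : ℂ → ℂ, SchWith f ω → LogBranch f L → ∀ n : ℕ, 1 ≤ n →
      2 * n * ‖gamma L n‖ ≤ ‖coeff ω n‖ + (Real.cosh 1 - 1) * (1 - ‖coeff ω n‖ ^ 2)) ∧
    (∀ f ω L : ℂ → ℂ, SchWith f ω → LogBranch f L → ∀ n : ℕ, 1 ≤ n →
      ‖coeff ω n‖ ≤ 0.841 → ‖gamma L n‖ ≤ 1 / (2 * n)) := by
  have key : ∀ f ω L : ℂ → ℂ, SchWith f ω → LogBranch f L → ∀ n : ℕ, 1 ≤ n →
      2 * n * ‖gamma L n‖ ≤ ‖coeff ω n‖ + (Real.cosh 1 - 1) * (1 - ‖coeff ω n‖ ^ 2) := by
    intro f ω L hf hL n hn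
    have h1 := bound hf hL hn
    have h2 : ‖gamma L n‖ = ‖coeff L n‖ / 2 := by
      rw [gamma, norm_div]
      simp
    rw [h2]
    linarith
  have hk1 := kappa_lt
  have hk2 := kappa_gt
  refine ⟨?_, ?_, key, ?_⟩
  · rintro f L ⟨ω, hf⟩ hL n hn hn6
    have h1 := bound_low hf hL hn hn6
    have h2 : ‖gamma L n‖ = ‖coeff L n‖ / 2 := by
      rw [gamma, norm_div]
      simp
    have hn' : (0 : ℝ) < 2 * n := by
      have : (1 : ℝ) ≤ n := by exact_mod_cast hn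
      linarith
    rw [le_div_iff₀ hn', h2]
    linarith
  · rintro f L ⟨ω, hf⟩ hL n hn
    have h1 := key f ω L hf hL n hn
    have hn' : (0 : ℝ) < 2 * n := by
      have : (1 : ℝ) ≤ n := by exact_mod_cast hn
      linarith
    rw [le_div_iff₀ hn']
    set b := ‖coeff ω n‖ with hb
    have h3 : b + (Real.cosh 1 - 1) * (1 - b ^ 2) ≤ 1.00342 := by
      rcases le_total (b ^ 2) 1 with h4 | h4
      · have h5 : (Real.cosh 1 - 1) * (1 - b ^ 2) ≤ 0.543081 * (1 - b ^ 2) := by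
          apply mul_le_mul_of_nonneg_right hk1.le
          linarith
        nlinarith [sq_nonneg (b - 0.92067)]
      · have h5 : (Real.cosh 1 - 1) * (1 - b ^ 2) ≤ 1 / 2 * (1 - b ^ 2) := by
          nlinarith
        nlinarith [sq_nonneg (b - 1)]
    linarith
  · intro f ω L hf hL n hn hb
    have h1 := key f ω L hf hL n hn
    have hn' : (0 : ℝ) < 2 * n := by
      have : (1 : ℝ) ≤ n := by exact_mod_cast hn
      linarith
    rw [le_div_iff₀ hn']
    set b := ‖coeff ω n‖ with hb'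
    have hb0 : 0 ≤ b := norm_nonneg _
    have h3 : b + (Real.cosh 1 - 1) * (1 - b ^ 2) ≤ 1 := by
      have h4 : (Real.cosh 1 - 1) * (1 + b) ≤ 1 := by nlinarith
      nlinarith [mul_nonneg (sub_nonneg.2 h4) (sub_nonneg.2 (show b ≤ 1 by linarith))]
    linarith

end Pool.Agent.Results.MP_3ad82e_an.LogCoefficientBound
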